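import Mathlib
import Pool.Agent.Work.MP_99279c_al.AA.Main2

/-!
Short words that are trivial on almost all pairs of permutations: length `O(n ^ 3 (log n) ^ 2)`
for every fixed proportion of exceptional pairs, with an explicit dependence on this proportion.
-/

set_option autoImplicit false

namespace Pool.Agent.Results.MP_99279c_al.AlmostAllPairs

/-- There is a constant `C` such that for all `n ≥ 2` and all `ε` with `n ^ (-1/20) ≤ ε ≤ 1` there
is a non-trivial word `w` in two letters, of length at most `C n ^ 3 (log n) ^ 2 / ε ^ 4`, such that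
`w(g, h) = 1` for all but at most `ε (n!) ^ 2` pairs `(g, h)` of permutations of `n` points. -/
theorem result :
    ∃ C : ℝ, ∀ n : ℕ, 2 ≤ n → ∀ ε : ℝ, (n : ℝ) ^ (-(1 / 20 : ℝ)) ≤ ε → ε ≤ 1 →
      ∃ w : FreeGroup (Fin 2), w ≠ 1 ∧
        ((FreeGroup.toWord w).length : ℝ) ≤ C * (n : ℝ) ^ 3 * (Real.log n) ^ 2 / ε ^ 4 ∧
        ((Finset.univ.filter (fun p : Equiv.Perm (Fin n) × Equiv.Perm (Fin n) =>
          FreeGroup.lift ![p.1, p.2] w ≠ 1)).card : ℝ) ≤ ε * (n.factorial : ℝ) ^ 2 := by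
  obtain ⟨C, hC⟩ := Pool.MP99279c.AA.main_uniform
  refine ⟨C, fun n hn ε h1 h2 => ?_⟩
  obtain ⟨q, hq1, hq2, hq3⟩ := hC n hn ε h1 h2
  exact ⟨q, hq1, hq2, hq3⟩

end Pool.Agent.Results.MP_99279c_al.AlmostAllPairs
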