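import Mathlib
import Pool.Agent.Work.MP_99279c_al.AA.Boost
import Pool.Agent.Work.MP_99279c_al.AA.PrimRed

/-!
Polynomial-length laws for the symmetric groups: reduction to an average-case problem about
approximate laws on pairs generating primitive groups.
-/

set_option autoImplicit false

namespace Pool.Agent.Results.MP_99279c_al.AverageReduction

/-- The symmetric groups satisfy laws of polynomial length if and only if there is a constant `C`
such that for every `n ≥ 2` and every set `X` of pairs of permutations of `n` points generating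
primitive groups there is a non-trivial word `w` of length at most `n ^ C` such that for at least
`|X| / n ^ C` of the pairs in `X` the value of `w` moves less than one third of the points. -/
theorem result :
    (∃ C : ℕ, ∀ n : ℕ, 2 ≤ n →
      ∃ w : FreeGroup (Fin 2), w ≠ 1 ∧
        (FreeGroup.toWord w).length ≤ n ^ C ∧
        ∀ f : Fin 2 → Equiv.Perm (Fin n), FreeGroup.lift f w = 1) ↔
    (∃ C : ℕ, ∀ n : ℕ, 2 ≤ n →
      ∀ X : Finset (Fin 2 → Equiv.Perm (Fin n)),
        (∀ f ∈ X, MulAction.IsPreprimitive (Subgroup.closure (Set.range f)) (Fin n)) →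
        ∃ w : FreeGroup (Fin 2), w ≠ 1 ∧
          (FreeGroup.toWord w).length ≤ n ^ C ∧
          X.card ≤ n ^ C *
            (X.filter (fun f => 3 * (FreeGroup.lift f w).support.card < n)).card) := by
  constructor
  · rintro ⟨C, hC⟩
    refine ⟨C, fun n hn X _ => ?_⟩
    obtain ⟨w, h1, h2, h3⟩ := hC n hn
    refine ⟨w, h1, h2, ?_⟩
    have h4 : X.filter (fun f => 3 * (FreeGroup.lift f w).support.card < n) = X := by
      apply Finset.filter_true_of_mem
      intro f _
      rw [h3 f, Equiv.Perm.support_one, Finset.card_empty]
      omega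
    rw [h4]
    exact Nat.le_mul_of_pos_left _ (Nat.pow_pos (by omega))
  · rintro ⟨C, hC⟩
    apply Pool.MP99279c.AA.primitive_reduction.mpr
    refine ⟨3 * C + 50, fun n hn => ?_⟩
    obtain ⟨w, h1, h2, h3⟩ := Pool.MP99279c.AA.boost n hn C
      (fun f => MulAction.IsPreprimitive (Subgroup.closure (Set.range f)) (Fin n))
      (fun f hf => hf.toIsPretransitive)
      (fun X hX => hC n hn X hX)
    exact ⟨w, h1, h2, h3⟩

end Pool.Agent.Results.MP_99279c_al.AverageReduction
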