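import Mathlib
import Pool.Agent.Work.MP_99279c_al.Met.Main

/-!
Laws of `Sym(n)` outside the second derived subgroup of the free group are long.
-/

set_option autoImplicit false

namespace Pool.Agent.Results.MP_99279c_al.SecondDerivedBound

/-- For `n ≥ 2`, every two-letter law of `Sym(n)` outside the second derived subgroup of the free
group has length at least `(n / log n) ^ (3/2) / 2000`. -/
theorem result :
    ∀ n : ℕ, 2 ≤ n → ∀ w : FreeGroup (Fin 2),
      w ∉ derivedSeries (FreeGroup (Fin 2)) 2 →
      (∀ f : Fin 2 → Equiv.Perm (Fin n), FreeGroup.lift f w = 1) →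
      ((n : ℝ) / Real.log n) ^ (3 / 2 : ℝ) / 2000 ≤ ((FreeGroup.toWord w).length : ℝ) :=
  fun _ hn _ hw2 hw => Pool.MP99279c.Met.main hn hw2 hw

end Pool.Agent.Results.MP_99279c_al.SecondDerivedBound
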