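import Mathlib
import Pool.Agent.Work.MP_99279c_al.LW.Final2

/-!
A superlinear lower bound for the length of the shortest law of the symmetric groups.
-/

set_option autoImplicit false

namespace Pool.Agent.Results.MP_99279c_al.SuperlinearBound

/-- For every real `c < 7 / 6` and all large `n`, every law of `Sym(n)` in two letters has length
more than `n ^ c`; and for every real `a > 6 / 7` and all large `r`, every non-trivial element of
length at most `r` of the free group of rank two has a non-trivial image under some homomorphism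
to a symmetric group of degree at most `r ^ a`. -/
theorem result :
    (∀ c : ℝ, c < 7 / 6 → ∃ n₀ : ℕ, ∀ n : ℕ, n₀ ≤ n →
      ∀ w : FreeGroup (Fin 2), w ≠ 1 →
        (∀ f : Fin 2 → Equiv.Perm (Fin n), FreeGroup.lift f w = 1) →
          (n : ℝ) ^ c < (FreeGroup.toWord w).length) ∧
    (∀ a : ℝ, 6 / 7 < a → ∃ r₀ : ℕ, ∀ r : ℕ, r₀ ≤ r →
      ∀ w : FreeGroup (Fin 2), w ≠ 1 → (FreeGroup.toWord w).length ≤ r →
        ∃ n : ℕ, (n : ℝ) ≤ (r : ℝ) ^ a ∧
          ∃ f : Fin 2 → Equiv.Perm (Fin n), FreeGroup.lift f w ≠ 1) := by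
  have main := Pool.LW.laws_seven_sixths
  constructor
  · intro c hc
    obtain ⟨n₀, h⟩ := main c hc
    refine ⟨n₀, fun n hn w hw hf => ?_⟩
    by_contra hcon
    rw [not_lt] at hcon
    obtain ⟨f, hf'⟩ := h n hn w hw hcon
    exact hf' (hf f)
  · intro a ha
    have ha0 : (0 : ℝ) < a := by linarith
    have h1a : 1 / a < 7 / 6 := by
      rw [div_lt_div_iff₀ ha0 (by norm_num)]
      linarith
    obtain ⟨c, hc1, hc2⟩ := exists_between h1a
    have hc0 : 0 < c := lt_trans (by positivity) hc1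
    have hac : 1 < a * c := by
      rw [div_lt_iff₀ ha0] at hc1
      linarith
    obtain ⟨n₀, h⟩ := main c hc2
    -- for large `r`
    have t1 : Filter.Tendsto (fun r : ℕ => (r : ℝ) ^ a) Filter.atTop Filter.atTop :=
      (tendsto_rpow_atTop ha0).comp tendsto_natCast_atTop_atTop
    have t2 : Filter.Tendsto (fun r : ℕ => (r : ℝ) ^ (a * c - 1)) Filter.atTop Filter.atTop :=
      (tendsto_rpow_atTop (by linarith)).comp tendsto_natCast_atTop_atTop
    obtain ⟨r₁, hr₁⟩ := Filter.eventually_atTop.1 (t1.eventually_ge_atTop ((n₀ : ℝ) + 2))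
    obtain ⟨r₂, hr₂⟩ := Filter.eventually_atTop.1 (t2.eventually_ge_atTop ((2 : ℝ) ^ c))
    refine ⟨max (max r₁ r₂) 1, fun r hr w hw hl => ?_⟩
    have e1 := hr₁ r (le_trans (le_trans (le_max_left _ _) (le_max_left _ _)) hr)
    have e2 := hr₂ r (le_trans (le_trans (le_max_right _ _) (le_max_left _ _)) hr)
    have hr1 : (1 : ℝ) ≤ r := by exact_mod_cast le_trans (le_max_right _ _) hr
    have hr0 : (0 : ℝ) < r := by linarith
    set n : ℕ := ⌊(r : ℝ) ^ a⌋₊ with hn
    have hra : 0 ≤ (r : ℝ) ^ a := by positivity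
    have hn1 : (n : ℝ) ≤ (r : ℝ) ^ a := Nat.floor_le hra
    have hn2 : (r : ℝ) ^ a < n + 1 := Nat.lt_floor_add_one _
    have hn3 : n₀ ≤ n := by
      have : (n₀ : ℝ) ≤ n := by linarith
      exact_mod_cast this
    have hn4 : (r : ℝ) ^ a / 2 ≤ n := by
      have : (0 : ℝ) ≤ n₀ := Nat.cast_nonneg _
      linarith
    have hlen : ((FreeGroup.toWord w).length : ℝ) ≤ (n : ℝ) ^ c := by
      have k1 : ((FreeGroup.toWord w).length : ℝ) ≤ r := by exact_mod_cast hl
      have k2 : ((r : ℝ) ^ a / 2) ^ c ≤ (n : ℝ) ^ c :=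
        Real.rpow_le_rpow (by positivity) hn4 hc0.le
      have k3 : ((r : ℝ) ^ a / 2) ^ c = (r : ℝ) ^ (a * c - 1) / 2 ^ c * r := by
        rw [Real.div_rpow hra (by norm_num), ← Real.rpow_mul hr0.le, Real.rpow_sub_one hr0.ne']
        field_simp
      have k4 : (r : ℝ) ≤ (r : ℝ) ^ (a * c - 1) / 2 ^ c * r := by
        have : 1 ≤ (r : ℝ) ^ (a * c - 1) / 2 ^ c := by
          rw [le_div_iff₀ (by positivity)]
          linarith
        nlinarith
      linarith
    obtain ⟨f, hf⟩ := h n hn3 w hw hlen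
    exact ⟨n, hn1, f, hf⟩

end Pool.Agent.Results.MP_99279c_al.SuperlinearBound
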